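import Pool.Agent.helper60.DK.Spec

/-!
# Row dk:ME2 (MP_fb2c2a_nt)
-/

namespace Pool.Agent.helper60.DK

open Polynomial Finset

section ME2
variable {R : Type*} [CommRing R]

theorem ME2_Eop_zero : Eop (0 : R[X]) = 0 := by
  simp [Eop]

theorem ME2_Eop_add (f g : R[X]) : Eop (f + g) = Eop f + Eop g := by
  unfold Eop
  simp only [derivative_add]
  ring

theorem ME2_Eop_C_mul (a : R) (f : R[X]) : Eop (C a * f) = C a * Eop f := by
  unfold Eop
  simp only [derivative_C_mul]
  ring

/-- the polynomial `-q B` -/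
noncomputable def ME2_y (q : R) : R[X] := C (-q) * ((X - 1) ^ 2 * (X + 2))

theorem ME2_d1 (q : R) : derivative (ME2_y q) = -C q * (3 * (X ^ 2 - 1)) := by
  have e : ME2_y q = C (-q) * ((X - 1) * (X - 1) * (X + 2)) := by
    rw [ME2_y]; ring
  have d2 : derivative (2 : R[X]) = 0 := by
    have : (2 : R[X]) = C 2 := rfl
    rw [this, derivative_C]
  rw [e, derivative_C_mul, C_neg, derivative_mul, derivative_mul, derivative_sub, derivative_add,
    derivative_X, derivative_one, d2]
  ring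

theorem ME2_d2 (q : R) : derivative (derivative (ME2_y q)) = -C q * (6 * X) := by
  have e : derivative (ME2_y q) = C (-q) * (C 3 * (X * X - 1)) := by
    rw [ME2_d1, C_neg]
    have h3 : (3 : R[X]) = C 3 := rfl
    rw [h3]
    ring
  rw [e, derivative_C_mul, derivative_C_mul, derivative_sub, derivative_mul, derivative_X,
    derivative_one, C_neg]
  have h3 : (3 : R[X]) = C 3 := rfl
  rw [← h3]
  ring

theorem ME2_pow (q : R) (hq : 4 * q = 1) (j : ℕ) :
    Eop (ME2_y q ^ j)
      = -(X ^ 2 - 1) * (9 * (j : R[X]) ^ 2 * ME2_y q ^ (j - 1)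
        + (9 * (j : R[X]) ^ 2 + 9 * (j : R[X]) + 2) * ME2_y q ^ j) := by
  have hC : (4 : R[X]) * C q = 1 := by
    have : (4 : R[X]) = C 4 := rfl
    rw [this, ← C_mul, hq, C_1]
  have hy : ME2_y q = -C q * ((X - 1) ^ 2 * (X + 2)) := by
    rw [ME2_y, C_neg]
  have h1 := ME2_d1 q
  have h2 := ME2_d2 q
  match j with
  | 0 =>
    simp only [Eop, pow_zero, derivative_one, derivative_zero, Nat.cast_zero]
    ring
  | 1 =>
    simp only [pow_one, Nat.cast_one, Nat.sub_self, pow_zero]
    unfold Eop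
    rw [h2, h1, hy]
    linear_combination (-9 * (X ^ 2 - 1) : R[X]) * hC
  | i + 2 =>
    have e0 : ∀ m : ℕ, derivative (ME2_y q ^ (m + 1))
        = ((m : R[X]) + 1) * (ME2_y q ^ m * derivative (ME2_y q)) := by
      intro m
      rw [derivative_pow_succ]
      simp only [C_add, C_1, C_eq_natCast]
      ring
    have e1 : derivative (ME2_y q ^ (i + 2))
        = ((i : R[X]) + 2) * (ME2_y q ^ (i + 1) * derivative (ME2_y q)) := by
      rw [e0 (i + 1)]
      push_cast
      ring
    have e2 : derivative (derivative (ME2_y q ^ (i + 2)))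
        = ((i : R[X]) + 2) * (((i : R[X]) + 1) * ME2_y q ^ i * derivative (ME2_y q) ^ 2
          + ME2_y q ^ (i + 1) * derivative (derivative (ME2_y q))) := by
      have hc : ((i : R[X]) + 2) = C ((i : R) + 2) := by
        simp only [C_add, C_eq_natCast]
        rfl
      rw [e1, hc, derivative_C_mul, derivative_mul, e0 i, ← hc]
      ring
    have e3 : ME2_y q ^ (i + 1) = ME2_y q ^ i * ME2_y q := pow_succ _ _
    have e4 : ME2_y q ^ (i + 2) = ME2_y q ^ i * ME2_y q * ME2_y q := by
      rw [pow_succ, pow_succ]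
    have e5 : i + 2 - 1 = i + 1 := rfl
    unfold Eop
    rw [e2, e1, h2, h1, e5, e4, e3]
    generalize ME2_y q ^ i = P
    rw [hy]
    push_cast
    linear_combination
      (P * 9 * ((i : R[X]) + 2) ^ 2 * (X ^ 2 - 1) * C q * ((X - 1) ^ 2 * (X + 2))) * hC

/-- telescoping -/
theorem ME2_tele (q : R) (hq : 4 * q = 1) (d : ℕ → R) (h0 : d 0 = 1)
    (hd : ∀ j : ℕ, 9 * ((j : R) + 1) ^ 2 * d (j + 1)
      = -((9 * (j : R) ^ 2 + 9 * (j : R) + 2) * d j)) (N : ℕ) :
    Eop (∑ j ∈ range (N + 1), C (d j) * ME2_y q ^ j)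
      = -(X ^ 2 - 1) * (C ((9 * (N : R) ^ 2 + 9 * (N : R) + 2) * d N) * ME2_y q ^ N) := by
  induction N with
  | zero =>
    rw [zero_add, sum_range_one, ME2_Eop_C_mul, ME2_pow q hq, h0]
    simp only [Nat.cast_zero, pow_zero]
    have h2 : (C (2 : R) : R[X]) = 2 := rfl
    simp [h2]
  | succ N ih =>
    rw [sum_range_succ, ME2_Eop_add, ih, ME2_Eop_C_mul, ME2_pow q hq]
    have e5 : N + 1 - 1 = N := rfl
    rw [e5]
    have hc := congrArg (C : R → R[X]) (hd N)
    simp only [C_mul, C_add, C_pow, C_neg, C_1, C_eq_natCast] at hc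
    have c9 : (C (9 : R) : R[X]) = 9 := rfl
    have c2 : (C (2 : R) : R[X]) = 2 := rfl
    rw [c9, c2] at hc
    simp only [C_mul, C_add, C_pow, C_eq_natCast, c9, c2]
    push_cast
    linear_combination (-(X ^ 2 - 1) * ME2_y q ^ N) * hc

end ME2

theorem ME2 : ME2_stmt := by
  intro p _ h5
  have hp : p.Prime := Fact.out
  have h4 : (4 : ZMod p) ≠ 0 := by
    have h := cast_ne_zero_of_lt (p := p) (m := 4) (by norm_num) (by omega)
    exact_mod_cast h
  have hq : (4 : ZMod p) * (1 / 4) = 1 := by field_simp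
  have hM : M2 p = ∑ j ∈ range (nn p + 1),
      C ((dc (nn p) j : ℤ) : ZMod p) * ME2_y (1 / 4 : ZMod p) ^ j := by
    unfold M2
    refine sum_congr rfl fun j _ => ?_
    unfold ME2_y
    have h14 : (-(1 / 4) : ZMod p) = -1 / 4 := by ring
    rw [h14, C_mul, C_pow, mul_pow (C (-1 / 4 : ZMod p))]
    ring
  rw [hM, ME2_tele (1 / 4 : ZMod p) hq (fun j => ((dc (nn p) j : ℤ) : ZMod p))
    (by simp [dc_zero])]
  · have h9 := nine_nK (p := p) h5
    have : (9 * (nn p : ZMod p) ^ 2 + 9 * (nn p : ZMod p) + 2) = 0 := by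
      linear_combination h9
    rw [this]
    simp
  · intro j
    have h := dc_succ (nn p) j
    have h' := congrArg (Int.cast : ℤ → ZMod p) h
    push_cast at h'
    have h9 := nine_nK (p := p) h5
    linear_combination 9 * h' + ((dc (nn p) j : ℤ) : ZMod p) * h9

end Pool.Agent.helper60.DK
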